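import Pool.Agent.TH128.OM.Inf2
import Pool.Agent.TH128.KS.Grp

/-!
# The periods of any Nori motive and of families of 1-motives: the unipotent part

Let `Z` be **any** Nori motive over the field of algebraic numbers, a direct sum of motives of ranks
`b_k` (for instance the cohomology of a variety, `b_k` the Betti numbers). Let `M_i`, `i ∈ ι`, be a
finite or infinite family of 1-motives `[ℤ^(R_i) → A_i]` over the algebraic numbers, `R_i` finite
or infinite, with abelian varieties `A_i` with `End(A_i) = ℤ` and without common isogeny factors, and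
linearly independent points of `A_i` (for instance a basis of `A_i(ℚ̄)` modulo torsion); or Kummer
motives `[ℤ^(R) → G_m]` of multiplicatively independent algebraic numbers (for instance all prime
numbers); or the pieces of the 1-motives `[ℤ^(R) → A]`, for any abelian variety `A`, which are
given by the pieces `V_i` of `H_1(A)` under the endomorphisms of `A` (with algebraic coefficients).
So `M_i` is a family of extensions of `1` by `V_i`, indexed by `R_i`, where `V_i` has rank `d_i`
(`V_i = H_1(A_i)`, `d_i = 2 dim A_i`, in the first case; `V_i = ℚ(1)`, `d_i = 1`, in the second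
case). For finite sets `J` and `K_j ⊆ R_j` let `M_j(K_j)` be the extension of `1^(K_j)` by `V_j`. The
unipotent radical of the motivic Galois group of `⨁_{j ∈ J} M_j(K_j)` is the vector group
`∏_{j ∈ J} V_j ⊗ ℂ^(K_j)` (Ribet, Bertrand, André).

The theorem: there are finite-dimensional spaces `X_i ⊆ ℂ^(R_i)` of finitely supported vectors,
spanned by vectors with algebraic coordinates, with `X_i = 0` for all but finitely many `i` and, for
all finite sets `T` of indices,
`∑_{i ∈ T} d_i dim(X_i) ≤ ∑ b_k ^ 2`
(`≤ ∑ b_k ^ 2 / 4` if the determinants of the `V_i`, `i ∈ T`, have the same weight), such that for all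
finite sets `J` and `K_j ⊆ R_j` every algebraic group `H` over the algebraic numbers, with a torsor
over the algebraic numbers which contains the comparison isomorphism of `⨁_{j ∈ J} M_j(K_j) ⊕ Z`,
contains the vector group `∏_{j ∈ J} V_j ⊗ W_j × 1`, where `W_j ⊆ ℂ^(K_j)` is the orthogonal
complement of the vectors of `X_j` which are supported in `K_j`.

So the number of the logarithms of algebraic numbers, and of algebraic points of abelian varieties,
which can be related to the periods of `Z` is bounded in terms of the ranks of `Z`, for all of them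
at the same time; and for `Z = 0` every such group `H` contains the whole unipotent radical of the
motivic Galois group, as the conjecture predicts. (The constant `1 / 4` is the best possible: let
`V = ℚ(1)`, `r = m ^ 2`, and let `Z` be the extension of `1^m` by `ℚ(1)^m`, of rank `2 m`, given by the
same `m ^ 2` logarithms. This remark is not part of the theorem.)

The data.

* `P i` is the matrix of the comparison isomorphism of `V_i` and the matrix with the rows `(P i, v i)`,
  `(0, 1)` the one of `M_i`, restricted to finitely many columns of `v i` (rows: de Rham side, columns: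
  Betti side; bases with algebraic coordinates). So for `A_i` the entries of `P i` are the periods
  `∫_{γ_b} ω_a` of a basis of the first de Rham cohomology and the columns of `v i` are logarithms
  of the points, that is of algebraic points of the universal vector extension of `A_i` above
  them; for `G_m` one has `P i = (2 π i)` and `v i` consists of the logarithms.
* The only hypothesis on the `M_i`: the number `1`, the entries of the `P i` and the entries of the
  `v i` are linearly independent over the algebraic numbers. (Baker for `G_m`, Wüstholz in general.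
  Nothing else is used, in particular no information on the Mumford-Tate groups of the `A_i`.)
* `Q` is the matrix of the comparison isomorphism of `Z`, `deg b` is the summand to which the
  basis vector `b` belongs; so `∑ b_k ^ 2` is the number of the pairs with `deg a = deg b`. Nothing is
  assumed on the periods of `Z`. The proof works for an arbitrary invertible matrix with this block
  structure.
* `SameWeight P T t`: the number `t` is transcendental and `det(P i) ^ 2 = a_i t ^ {d_i}` with algebraic
  numbers `a_i`, for all `i ∈ T`. For `V_i = H_1(A_i)` this is so with `t = 2 π i`, by the relation of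
  Legendre.

The idea of the proof. For finite sets `J`, `K` let `Λ` be the smallest Lie algebra of triples (first
part, unipotent part, part of `Z`) which is stable under all derivations of the complex numbers and
contains the logarithmic derivatives of the period matrices. Its first components generate the
product of the algebras `End(V_j)`, so they form a reductive Lie algebra (Cartan's criterion). If the
unipotent parts of the elements with trivial first component are not everything, then a linear
combination with algebraic coefficients of the unipotent parts is a 1-cocycle with values in `V_j`.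
It is a coboundary (Whitehead's lemma, proved with a Casimir element), of an algebraic vector, and
this gives a linear relation between `1` and the entries of `P j` and `v j`. So the unipotent parts
of these elements are everything; the ones whose part of `Z` vanishes have a codimension of at most
`∑ b_k ^ 2`. If the weights are the same, the centre contains an element which acts on the `V_j` by
`1`, and the others are given by elements of a generalized eigenspace of `ad z` for the eigenvalue
`1`, where `z` is a block matrix; the dimension of this eigenspace is at most `∑ b_k ^ 2 / 4`. The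
annihilators of these unipotent parts increase with `J` and `K`; they are bounded, so they become
stationary.
-/

set_option autoImplicit false
set_option linter.unusedSectionVars false

namespace Pool.Agent.Results.MP_ae0f86_nt.AnyMotiveTimesOneMotives

open Matrix Module

section defs

/-- A subgroup of `GL_R(ℂ)` defined by polynomials with algebraic coefficients. -/
def IsAlgebraicSubgroup {R : Type} [Fintype R] [DecidableEq R] (H : Subgroup (GL R ℂ)) : Prop :=
  ∃ I : Set (MvPolynomial (R × R) ℂ), (∀ p ∈ I, ∀ m, IsAlgebraic ℚ (p.coeff m)) ∧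
    ∀ g : GL R ℂ, g ∈ H ↔ ∀ p ∈ I, MvPolynomial.eval (fun b => (g : Matrix R R ℂ) b.1 b.2) p = 0

/-- The matrix `E` belongs to a torsor `H · A⁻¹` of `H` defined over the algebraic numbers. -/
def HasPoint {R : Type} [Fintype R] [DecidableEq R] (E : Matrix R R ℂ) (H : Subgroup (GL R ℂ)) :
    Prop :=
  ∃ A : Matrix R R ℂ, (∀ i j, IsAlgebraic ℚ (A i j)) ∧ ∃ g ∈ H, (g : Matrix R R ℂ) = E * A

variable {ι : Type} {N R : ι → Type} [∀ i, Fintype (N i)] [∀ i, DecidableEq (N i)]

/-- The number `1`, the entries of the `P i` and the entries of the `v i`. -/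
def numbers (P : ∀ i, GL (N i) ℂ) (v : ∀ i, Matrix (N i) (R i) ℂ) :
    Option (Σ i, N i × (N i ⊕ R i)) → ℂ
  | none => 1
  | some ⟨i, a, Sum.inl b⟩ => (P i).val a b
  | some ⟨i, a, Sum.inr k⟩ => v i a k

/-- The space of finitely supported vectors is spanned by vectors with algebraic coordinates. -/
def IsRational {K : Type} (X : Submodule ℂ (K →₀ ℂ)) : Prop :=
  X = Submodule.span ℂ {x | x ∈ X ∧ ∀ k, IsAlgebraic ℚ (x k)}

/-- The determinants of the `P i`, `i ∈ T`, have the same weight: `det(P i) ^ 2 = a_i t ^ {d_i}` with
algebraic numbers `a_i` and a transcendental number `t`. -/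
def SameWeight (P : ∀ i, GL (N i) ℂ) (T : Finset ι) (t : ℂ) : Prop :=
  Transcendental ℚ t ∧
    ∀ i ∈ T, ∃ a : ℂ, IsAlgebraic ℚ a ∧ (P i).val.det ^ 2 = a * t ^ Fintype.card (N i)

end defs

section proof

variable {ι : Type} {N R : ι → Type} [∀ i, Fintype (N i)] [∀ i, DecidableEq (N i)]
  [∀ i, DecidableEq (R i)]

theorem ind_of {P : ∀ i, GL (N i) ℂ} {v : ∀ i, Matrix (N i) (R i) ℂ}
    (h : LinearIndependent (algebraicClosure ℚ ℂ) (numbers P v)) (J : Finset ι)
    (K : ∀ i, Finset (R i)) :
    Pool.Agent.TH128.OM.Ind (fun j : J => (P j).val) (Pool.Agent.TH128.OM.vK v J K) := by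
  classical
  intro c C D hc hC hD h0
  let g : Option (Σ j : J, N j × (N j ⊕ K j)) → Option (Σ i, N i × (N i ⊕ R i)) :=
    Option.map fun q => ⟨q.1.1, q.2.1, Sum.map id Subtype.val q.2.2⟩
  have hg : Function.Injective g := by
    refine Option.map_injective ?_
    rintro ⟨⟨i, hi⟩, a, q⟩ ⟨⟨i', hi'⟩, a', q'⟩ hq
    obtain ⟨h1, h2⟩ := Sigma.mk.inj_iff.1 hq
    change i = i' at h1
    subst h1
    obtain ⟨h3, h4⟩ := Prod.ext_iff.1 (eq_of_heq h2)
    have h5 : q = q' := Sum.map_injective.2 ⟨Function.injective_id, Subtype.val_injective⟩ h4
    have h6 : a = a' := h3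
    rw [h5, h6]
  have hli := h.comp g hg
  let co : Option (Σ j : J, N j × (N j ⊕ K j)) → algebraicClosure ℚ ℂ := fun o =>
    match o with
    | none => ⟨c, mem_algebraicClosure_iff.2 hc⟩
    | some ⟨j, a, Sum.inl b⟩ => ⟨C j a b, mem_algebraicClosure_iff.2 (hC j a b)⟩
    | some ⟨j, a, Sum.inr k⟩ => ⟨D j a k, mem_algebraicClosure_iff.2 (hD j a k)⟩
  have hz := Fintype.linearIndependent_iff.1 hli co (by
    rw [Fintype.sum_option, Fintype.sum_sigma]
    simp only [Fintype.sum_prod_type, Fintype.sum_sum_type, Finset.sum_add_distrib]
    rw [← h0, add_assoc]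
    congr 1
    exact mul_one c)
  constructor
  · funext j
    ext a b
    exact congrArg Subtype.val (hz (some ⟨j, a, Sum.inl b⟩))
  · funext j
    ext a k
    exact congrArg Subtype.val (hz (some ⟨j, a, Sum.inr k⟩))

end proof

/-- **Theorem.** Let `Q` be the comparison isomorphism of any object, with blocks given by `deg`, and
let `(P i, v i)` be the comparison isomorphisms of families of extensions of `1` by `V_i`, indexed by
`R i`, with `1` and all entries linearly independent over the algebraic numbers. There are
finite-dimensional spaces `X i` of finitely supported vectors in `ℂ^(R i)`, spanned by vectors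
with algebraic coordinates, with finitely many exceptions equal to `0`, with
`∑_{i ∈ T} d_i dim(X i) ≤ ∑ b_k ^ 2` for all finite sets `T`, and `4 ∑_{i ∈ T} d_i dim(X i) ≤ ∑ b_k ^ 2`
if the determinants of the `V_i`, `i ∈ T`, have the same weight, such that for all finite sets `J` and
`K j ⊆ R j` all algebraic groups `H` over the algebraic numbers, with a torsor over the algebraic
numbers which contains the comparison isomorphism of `⨁_{j ∈ J} M_j(K_j) ⊕ Z`, contain the
vector group `∏_{j ∈ J} V_j ⊗ W_j × 1`, where `W_j ⊆ ℂ^(K_j)` is orthogonal to the vectors of `X_j`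
which are supported in `K_j`. -/
theorem result {ι B D : Type} [DecidableEq ι] [Fintype B] [DecidableEq B] [Fintype D]
    [DecidableEq D] {N R : ι → Type} [∀ i, Fintype (N i)] [∀ i, DecidableEq (N i)]
    [∀ i, Nonempty (N i)] [∀ i, DecidableEq (R i)]
    {P : ∀ i, GL (N i) ℂ} {v : ∀ i, Matrix (N i) (R i) ℂ}
    (hWustholz : LinearIndependent (algebraicClosure ℚ ℂ) (numbers P v))
    (Q : GL B ℂ) (deg : B → D) (hQ : ∀ a b, deg a ≠ deg b → Q.val a b = 0) :
    ∃ X : ∀ i, Submodule ℂ (R i →₀ ℂ),
      (∀ i, Module.Finite ℂ (X i)) ∧ (∀ i, IsRational (X i)) ∧ {i | X i ≠ ⊥}.Finite ∧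
      (∀ T : Finset ι, ∑ i ∈ T, Fintype.card (N i) * finrank ℂ (X i) ≤
        Fintype.card {p : B × B // deg p.1 = deg p.2}) ∧
      (∀ (T : Finset ι) (t : ℂ), SameWeight P T t →
        4 * ∑ i ∈ T, Fintype.card (N i) * finrank ℂ (X i) ≤
          Fintype.card {p : B × B // deg p.1 = deg p.2}) ∧
      ∀ (J : Finset ι) (K : ∀ i, Finset (R i))
        (H : Subgroup (GL ((Σ j : J, N j ⊕ K j) ⊕ B) ℂ)),
        IsAlgebraicSubgroup H →
        HasPoint (fromBlocks (blockDiagonal' fun j : J => fromBlocks (P j).val
          ((v j).submatrix id fun k : K j => k.val) 0 1) 0 0 Q.val) H →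
        ∀ y : ∀ j : J, Matrix (N j) (K j) ℂ,
          (∀ (j : J) (a : N j), ∀ x ∈ X j, (∀ k, k ∉ K j → x k = 0) →
            ∑ k : K j, x k.val * y j a k = 0) →
          ∃ h ∈ H, h.val =
            fromBlocks (blockDiagonal' fun j : J => fromBlocks 1 (y j) 0 1) 0 0 1 := by
  classical
  have hQb : Pool.Agent.TH128.KS.Blk deg Q.val := hQ
  have e1 : Q.val * (Q⁻¹).val = 1 := by rw [← Units.val_mul, mul_inv_cancel, Units.val_one]
  have e2 : (Q⁻¹).val * Q.val = 1 := by rw [← Units.val_mul, inv_mul_cancel, Units.val_one]
  have hQb' : Pool.Agent.TH128.KS.Blk deg (Q⁻¹).val := hQb.inv e1 e2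
  obtain ⟨X, hX0, hX1, hX2, hX3, hX4⟩ := Pool.Agent.TH128.OM.mainInf (P := fun i => (P i).val)
    (P' := fun i => ((P i)⁻¹).val) (v := v) (Q := Q.val) (Q' := (Q⁻¹).val) (deg := deg)
    (fun i => by rw [← Units.val_mul, mul_inv_cancel, Units.val_one])
    (fun i => by rw [← Units.val_mul, inv_mul_cancel, Units.val_one]) e1 e2
    (fun J K => ind_of hWustholz J K) hQb hQb'
  refine ⟨X, hX0, fun i => le_antisymm (hX1 i) (Submodule.span_le.2 fun w hw => hw.1), ?_, hX2,
    fun T t ht => hX3 T t ht.1 ht.2, ?_⟩
  · by_contra hinf
    obtain ⟨T, hTs, hTc⟩ := Set.Infinite.exists_subset_card_eq hinf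
      (Fintype.card {p : B × B // deg p.1 = deg p.2} + 1)
    have h1 := hX2 T
    have h2 : T.card ≤ ∑ i ∈ T, Fintype.card (N i) * finrank ℂ (X i) := by
      rw [Finset.card_eq_sum_ones]
      refine Finset.sum_le_sum fun i hi => Nat.mul_pos Fintype.card_pos ?_
      have h3 : X i ≠ ⊥ := hTs hi
      have h5 : Module.Finite ℂ (X i) := hX0 i
      exact Nat.pos_of_ne_zero fun h6 => h3 (Submodule.finrank_eq_zero.1 h6)
    omega
  · rintro J K H hH ⟨A, hA, g₁, hg₁, hPA⟩ y hy
    have hA0 : A.det ≠ 0 := by
      have h4 := (Matrix.isUnit_iff_isUnit_det _).1 g₁.isUnit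
      rw [hPA, det_mul, isUnit_iff_ne_zero] at h4
      exact right_ne_zero_of_mul h4
    have hA1 : A * A⁻¹ = 1 := Matrix.mul_nonsing_inv _ (isUnit_iff_ne_zero.2 hA0)
    have hHal : Pool.Agent.TH119.MX.AlgGrp Pool.Agent.TH164.A1.QA
        (Pool.Agent.TH164.A1.carr H) := by
      refine Pool.Agent.TH164.A1.algGrp_carr ?_
      obtain ⟨I, h4, h6⟩ := hH
      exact ⟨I, fun p hp m => Pool.Agent.TH164.A1.mem_QA.2 (h4 p hp m), h6⟩
    obtain ⟨x, hx1, hx2⟩ := hX4 J K (Pool.Agent.TH164.A1.carr H) hHal A A⁻¹ hA1
      (Pool.Agent.TH164.A1.inv_mem_entries fun i j => Pool.Agent.TH164.A1.mem_QA.2 (hA i j))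
      ⟨g₁, hg₁, hPA⟩ y hy
    exact ⟨x, hx1, hx2⟩

end Pool.Agent.Results.MP_ae0f86_nt.AnyMotiveTimesOneMotives
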