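import Pool.Agent.TH659.AQ.Mixed

/-!
# Periods of Legendre curves, logarithms and `π` at almost all tuples of rational points
-/

set_option autoImplicit false

namespace Pool.Agent.Results.MP_ae0f86_nt.EllipticAndLogPeriods

/-- The complete elliptic integral of the first kind, `K(s) = ∫_0^{π/2} (1 - s sin²θ)^(-1/2) dθ`. -/
noncomputable def K (s : ℝ) : ℝ := ∫ θ in (0 : ℝ)..(Real.pi / 2), 1 / √(1 - s * Real.sin θ ^ 2)

/-- The complete elliptic integral of the second kind, `E(s) = ∫_0^{π/2} (1 - s sin²θ)^(1/2) dθ`. -/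
noncomputable def E (s : ℝ) : ℝ := ∫ θ in (0 : ℝ)..(Real.pi / 2), √(1 - s * Real.sin θ ^ 2)

/-- The `(3 N + k) n + 1` numbers `π`, `K(s)`, `E(s)`, `K(1 - s)` for `s = s_j(q_l) = (q_l - α_j) / (γ_j - α_j)`,
`j < N`, and `log (q_l + x_i)`, `i < k`; `l < n`. -/
noncomputable def periods {N k n : ℕ} (α γ : Fin N → ℝ) (x : Fin k → ℝ) (q : Fin n → ℚ)
    (z : Option (Fin n × ((Fin N × Fin 3) ⊕ Fin k))) : ℝ :=
  match z with
  | none => Real.pi
  | some (l, Sum.inl (j, i)) => ![K ((q l - α j) / (γ j - α j)), E ((q l - α j) / (γ j - α j)),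
      K (1 - (q l - α j) / (γ j - α j))] i
  | some (l, Sum.inr i) => Real.log (q l + x i)

/-- The `n`-tuples `q` of rational numbers in `[a, b]` with denominators at most `T` for which some nonzero polynomial
in `(3 N + k) n + 1` variables with integer coefficients of absolute value at most `T ^ A`, of degree at most `d` in
each variable, takes at the numbers `periods` a value of absolute value at most `T ^ (-B)`. -/
def Exceptional {N k : ℕ} (n d : ℕ) (α γ : Fin N → ℝ) (x : Fin k → ℝ) (a b A B T : ℝ) : Set (Fin n → ℚ) :=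
  {q | (∀ l, a ≤ q l ∧ q l ≤ b ∧ ((q l).den : ℝ) ≤ T) ∧
    ∃ P : MvPolynomial (Option (Fin n × ((Fin N × Fin 3) ⊕ Fin k))) ℤ, P ≠ 0 ∧ (∀ z, P.degreeOf z ≤ d) ∧
      (∀ s, |((P.coeff s : ℤ) : ℝ)| ≤ T ^ A) ∧ |MvPolynomial.aeval (periods α γ x q) P| ≤ T ^ (-B)}

/-- Let `α_1 > ⋯ > α_N > c`, `γ_1 < ⋯ < γ_N`, `x_1, …, x_k` distinct with `c + x_i > 0`, and `c ≤ a < b` with
`α_1 < a`, `b < γ_1`. For `n ≥ 1`, `d`, `A ≥ 0` and `β > 2 - 2 / ((d + 1) ^ ((3 N + k) n + 1) + 1)` there are `B` and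
`C` such that for all `T ≥ 1` there are at most `C T ^ (2 (n - 1) + β)` exceptional `n`-tuples. -/
theorem result {N k : ℕ} (n d : ℕ) (hn : 1 ≤ n) (α γ : Fin N → ℝ) (x : Fin k → ℝ) (hα : StrictAnti α)
    (hγ : StrictMono γ) (hx : Function.Injective x) (c : ℝ) (hcα : ∀ j, c < α j)
    (hcx : ∀ i, 0 < c + x i) (a b : ℝ) (hab : a < b) (hca : c ≤ a) (h : ∀ j, α j < a ∧ b < γ j)
    (A β : ℝ) (hA : 0 ≤ A) (hβ : 2 - 2 / (((d : ℝ) + 1) ^ ((3 * N + k) * n + 1) + 1) < β) :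
    ∃ B C : ℝ, ∀ T : ℝ, 1 ≤ T → (Exceptional n d α γ x a b A B T).Finite ∧
      ((Exceptional n d α γ x a b A B T).ncard : ℝ) ≤ C * T ^ (2 * ((n : ℝ) - 1) + β) := by
  obtain ⟨B, C, h0⟩ := TH659.AQ.mixed n d hn α γ x hα hγ hx c hcα hcx a b hab hca h A β hA hβ
  refine ⟨B, C, fun T hT => ?_⟩
  have heq : ∀ q : Fin n → ℚ, periods α γ x q = TH659.AQ.vR (TH659.AQ.um α γ x) q := by
    intro q
    funext z
    rcases z with _ | ⟨l, ⟨j, i⟩ | i⟩
    · rfl
    · have hne : γ j - α j ≠ 0 := by linarith [(h j).1, (h j).2]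
      fin_cases i
      · rfl
      · rfl
      · show K (1 - (q l - α j) / (γ j - α j)) = TH818.AR.KK ((γ j - q l) / (γ j - α j))
        have : 1 - ((q l : ℝ) - α j) / (γ j - α j) = (γ j - q l) / (γ j - α j) := by
          field_simp
          ring
        rw [this]
        rfl
    · rfl
  have heq2 : Exceptional n d α γ x a b A B T =
      TH659.AQ.ExR (n := n) d (TH659.AQ.um α γ x) a b A B T := by
    unfold Exceptional TH659.AQ.ExR
    simp only [heq]
  rw [heq2]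
  exact h0 T hT

end Pool.Agent.Results.MP_ae0f86_nt.EllipticAndLogPeriods
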