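import Pool.Agent.TH426.MT.Logs

/-!
# The de Rham–Betti form of the period conjecture for mixed Tate motives over number fields

Let `F ⊂ ℂ` be a number field. The Tannaka group of the category `MT(F)` of mixed Tate motives over `F`
is `U ⋊ 𝔾_m`, the graded Lie algebra of `U` being free on generators dual to bases of
`Ext¹(ℚ(0), ℚ(n)) = K_{2n-1}(F) ⊗ ℚ`, `n ≥ 1`. Its objects are the graded representations of this free
Lie algebra (`Obj` in `Pool.Agent.TH426.MT.Gen`, in homogeneous bases). The generators are indexed by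
`I ⊕ J`: those of degree `1` by a basis `α` of `F^× ⊗ ℚ`, with the periods `log α_i`, those of degree
`n ≥ 2` by the elements of `J` of degree `n`, with the regulators `u_j ∈ ℂ` as periods.

`k` is any field of algebraic numbers, for instance the field of all algebraic numbers; the
coefficients of the de Rham and of the Betti realisation are extended to `k`.
-/

set_option autoImplicit false

namespace Pool.Agent.Results.MP_ae0f86_nt.MixedTateNumberFields

open Pool.Agent.TH426.MT

/-- The degrees of the generators: `1` for the elements of `I`, `degJ j` for those of `J`. -/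
abbrev dg (I : Type) {J : Type} (degJ : J → ℕ) : I ⊕ J → ℕ := Sum.elim (fun _ => 1) degJ

/-- **Main result.**

(1), (2): the de Rham–Betti form, for subobjects and for morphisms, holds for all objects on which
only generators of degree `1` act.

(3), (4): it holds for all objects of length at most `c - 1` (all weights in an interval of length
`2 (c - 1)`), when there are no generators of degrees `2, …, c - 1`. For instance `c = 2` for every
`F`, `c = 3` if `F` is totally real (then `K_3(F) ⊗ ℚ = 0`).

(5), (6): it holds for the objects such that, for every `t ≥ 2`, the regulators of those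
generators of degree `t` which act, `1` and `(2πi)^t` are linearly independent over `k`.

(7): it holds for all objects, in either form, if and only if for every `t ≥ 2` the regulators of
degree `t`, `1` and `(2πi)^t` are linearly independent over `k`. -/
theorem result {I J : Type} (degJ : J → ℕ) (hJ : ∀ j, 2 ≤ degJ j)
    -- multiplicatively independent algebraic numbers and their logarithms
    (α lam : I → ℂ) (hα : ∀ i, IsAlgebraic ℚ (α i)) (hexp : ∀ i, Complex.exp (lam i) = α i)
    (hmul : MulIndep α)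
    -- the coefficients
    (k : Type) [Field k] [Algebra k ℂ] (hk : ∀ x : k, IsAlgebraic ℚ (algebraMap k ℂ x))
    -- the periods of the words
    (u : List (I ⊕ J) → ℂ) (h0 : u [] = 1) (h1 : ∀ i, u [Sum.inl i] = lam i) :
    (∀ M : Obj (I ⊕ J) (dg I degJ) k, (∀ j, M.σ (Sum.inr j) = 0) → M.Saturated u) ∧
    (∀ M N : Obj (I ⊕ J) (dg I degJ) k, (∀ j, M.σ (Sum.inr j) = 0) → (∀ j, N.σ (Sum.inr j) = 0) →
      Full M N u) ∧
    (∀ c : ℕ, (∀ j, c ≤ degJ j) → ∀ M : Obj (I ⊕ J) (dg I degJ) k,
      (∀ i j, M.d i < M.d j + c) → M.Saturated u) ∧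
    (∀ c : ℕ, (∀ j, c ≤ degJ j) → ∀ M N : Obj (I ⊕ J) (dg I degJ) k,
      (∀ i j, M.d i < M.d j + c) → (∀ i j, N.d i < N.d j + c) → Full M N u) ∧
    (∀ M : Obj (I ⊕ J) (dg I degJ) k,
      (∀ t, 2 ≤ t → Indep k (dg I degJ) u (fun l => M.σ l ≠ 0) t) → M.Saturated u) ∧
    (∀ M N : Obj (I ⊕ J) (dg I degJ) k,
      (∀ t, 2 ≤ t → Indep k (dg I degJ) u (fun l => M.σ l ≠ 0 ∨ N.σ l ≠ 0) t) → Full M N u) ∧
    List.TFAE [∀ M : Obj (I ⊕ J) (dg I degJ) k, M.Saturated u,
      ∀ M N : Obj (I ⊕ J) (dg I degJ) k, Full M N u,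
      ∀ t, 2 ≤ t → ∀ s : Finset J, (∀ j ∈ s, degJ j = t) → ∀ (c : J → k) (a b : k),
        algebraMap k ℂ a + algebraMap k ℂ b * (2 * Real.pi * Complex.I) ^ t +
          ∑ j ∈ s, algebraMap k ℂ (c j) * u [Sum.inr j] = 0 →
        a = 0 ∧ b = 0 ∧ ∀ j ∈ s, c j = 0] := by
  classical
  have hpos : ∀ l, 0 < dg I degJ l := by
    intro l
    rcases l with i | j
    · exact one_pos
    · exact lt_of_lt_of_le two_pos (hJ j)
  have hone : ∀ P : I ⊕ J → Prop, Indep k (dg I degJ) u P 1 := fun P =>
    indep_one hk hJ hα hexp hmul h1 P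
  -- no active generators of degree `t ≥ 2`
  have hno : ∀ (P : I ⊕ J → Prop) (t : ℕ), 2 ≤ t → (∀ j, ¬ P (Sum.inr j)) →
      Indep k (dg I degJ) u P t := by
    intro P t ht hP
    apply indep_of_unique hk (by omega)
    · intro l l' hl _ hlt _
      rcases l with i | j
      · simp only [dg, Sum.elim_inl] at hlt
        omega
      · exact absurd hl (hP j)
    · intro l hl hlt
      rcases l with i | j
      · simp only [dg, Sum.elim_inl] at hlt
        omega
      · exact absurd hl (hP j)
  have hcases : ∀ (P : I ⊕ J → Prop), (∀ t, 2 ≤ t → Indep k (dg I degJ) u P t) →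
      ∀ t, 1 ≤ t → Indep k (dg I degJ) u P t := by
    intro P h t ht
    rcases Nat.eq_or_lt_of_le ht with rfl | h'
    · exact hone P
    · exact h t h'
  have hwin : ∀ c : ℕ, (∀ j, c ≤ degJ j) → ∀ M : Obj (I ⊕ J) (dg I degJ) k,
      (∀ i j, M.d i < M.d j + c) → ∀ j, M.σ (Sum.inr j) = 0 := by
    intro c hc M hM j
    by_contra hne
    have hex : ∃ i i', M.σ (Sum.inr j) i i' ≠ 0 := by
      by_contra hcon
      push Not at hcon
      exact hne (by ext i i'; exact hcon i i')
    obtain ⟨i, i', hii⟩ := hex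
    have h2 := M.raises _ i i' hii
    have h3 := hM i i'
    have h4 := hc j
    simp only [dg, Sum.elim_inr] at h2
    omega
  have A1 : ∀ M : Obj (I ⊕ J) (dg I degJ) k,
      (∀ t, 2 ≤ t → Indep k (dg I degJ) u (fun l => M.σ l ≠ 0) t) → M.Saturated u :=
    fun M hM => sat_of hpos h0 M (hcases _ hM)
  have A2 : ∀ M N : Obj (I ⊕ J) (dg I degJ) k,
      (∀ t, 2 ≤ t → Indep k (dg I degJ) u (fun l => M.σ l ≠ 0 ∨ N.σ l ≠ 0) t) → Full M N u :=
    fun M N hMN => full_of hpos h0 M N (hcases _ hMN)
  have A3 : ∀ M : Obj (I ⊕ J) (dg I degJ) k, (∀ j, M.σ (Sum.inr j) = 0) → M.Saturated u :=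
    fun M hM => A1 M fun t ht => hno _ t ht fun j hj => hj (hM j)
  have A4 : ∀ M N : Obj (I ⊕ J) (dg I degJ) k, (∀ j, M.σ (Sum.inr j) = 0) →
      (∀ j, N.σ (Sum.inr j) = 0) → Full M N u :=
    fun M N hM hN => A2 M N fun t ht => hno _ t ht fun j hj => by
      rcases hj with hj | hj
      · exact hj (hM j)
      · exact hj (hN j)
  refine ⟨A3, A4, fun c hc M hM => A3 M (hwin c hc M hM),
    fun c hc M N hM hN => A4 M N (hwin c hc M hM) (hwin c hc N hN), A1, A2, ?_⟩
  have hgen := equiv (k := k) (deg := dg I degJ) hk hpos h0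
  have hiff : (∀ t, 1 ≤ t → Indep k (dg I degJ) u (fun _ => True) t) ↔
      ∀ t, 2 ≤ t → ∀ s : Finset J, (∀ j ∈ s, degJ j = t) → ∀ (c : J → k) (a b : k),
        algebraMap k ℂ a + algebraMap k ℂ b * (2 * Real.pi * Complex.I) ^ t +
          ∑ j ∈ s, algebraMap k ℂ (c j) * u [Sum.inr j] = 0 →
        a = 0 ∧ b = 0 ∧ ∀ j ∈ s, c j = 0 := by
    constructor
    · intro h t ht s hs c a b hab
      have hinj : Set.InjOn (Sum.inr : J → I ⊕ J) (s : Set J) := Sum.inr_injective.injOn
      obtain ⟨h3, h4, h5⟩ := h t (by omega) (s.map Function.Embedding.inr) (by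
        intro l hl
        rw [Finset.mem_map] at hl
        obtain ⟨j, hj, rfl⟩ := hl
        exact ⟨trivial, hs j hj⟩) (Sum.elim (fun _ => 0) c) a b (by
        rw [Finset.sum_map]
        exact hab)
      exact ⟨h3, h4, fun j hj => h5 (Sum.inr j) (Finset.mem_map_of_mem _ hj)⟩
    · intro h
      apply hcases
      intro t ht s hs c a b hab
      have hl : ∀ l ∈ s, ∃ j, l = Sum.inr j := by
        intro l hl
        rcases l with i | j
        · have h2 := (hs _ hl).2
          simp only [dg, Sum.elim_inl] at h2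
          omega
        · exact ⟨j, rfl⟩
      obtain ⟨h3, h4, h5⟩ := h t ht (s.preimage Sum.inr Sum.inr_injective.injOn) (by
        intro j hj
        rw [Finset.mem_preimage] at hj
        exact (hs _ hj).2) (fun j => c (Sum.inr j)) a b (by
        rw [Finset.sum_preimage Sum.inr s Sum.inr_injective.injOn
          (fun l => algebraMap k ℂ (c l) * u [l])]
        · exact hab
        · intro l hls hr
          obtain ⟨j, rfl⟩ := hl l hls
          exact absurd ⟨j, rfl⟩ hr)
      refine ⟨h3, h4, fun l hls => ?_⟩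
      obtain ⟨j, rfl⟩ := hl l hls
      exact h5 j (by rw [Finset.mem_preimage]; exact hls)
  rw [hiff] at hgen
  exact hgen

end Pool.Agent.Results.MP_ae0f86_nt.MixedTateNumberFields
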